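import Pool.Agent.V5helper47.MinLen.Alg

/-!
# Minimum-length multiples of nonmonic irreducible polynomials can be computed

There is an algorithm (a computable function on lists of integers) which outputs a minimum-length
multiple for every nonmonic irreducible polynomial of positive degree with integer coefficients,
given by the list of its coefficients. In particular this holds for the polynomials all of whose
zeros lie in the closed unit disc.

Method. Let `F = G z ^ n + H` be a multiple of `P`, with `deg H < n` and `P ∤ G`. Let `α` be a zero of
`P` and `v` a prime of `ℚ(α)` with `|α|_v > 1`. Then `|G(α)|_v ≤ |α|_v ^ (deg H - n)` is small if there is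
a large gap between `n` and `deg H`, and the norm of `a ^ (deg G) G(α)`, with `a` the leading
coefficient of `P`, gives the bound `2 ^ (n - deg H) ≤ L(P) ^ ((2 deg G + 1) deg P)`. Since a
minimum-length multiple `F` has at most `L(P)` terms, and no such `G` is a multiple of `P`, its degree
and the coefficients of the cofactor are effectively bounded, so a finite search suffices.
-/

namespace Pool.Agent.Results.MP_e7878a_nt.Algorithm

open Polynomial

/-- The polynomial with the coefficients `l₀, l₁, …` (`lᵢ` is the coefficient of `z ^ i`). -/
noncomputable def ofList (l : List ℤ) : ℤ[X] :=
  ∑ i ∈ Finset.range l.length, monomial i (l.getD i 0)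

/-- The length `L(F)`: the sum of the absolute values of the coefficients. -/
def length (F : ℤ[X]) : ℕ := ∑ i ∈ F.support, (F.coeff i).natAbs

/-- There is a computable function `f` on lists of integers such that, whenever `l` is a list of
coefficients of an irreducible polynomial `P` of positive degree whose leading coefficient is not
`±1`, then `f l` is a list of coefficients of a nonzero multiple of `P` whose length is the smallest
among the nonzero multiples of `P`. -/
theorem result : ∃ f : List ℤ → List ℤ, Computable f ∧
    ∀ l : List ℤ, Irreducible (ofList l) → 0 < (ofList l).natDegree →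
      (ofList l).leadingCoeff ≠ 1 → (ofList l).leadingCoeff ≠ -1 →
        ofList (f l) ≠ 0 ∧ ofList l ∣ ofList (f l) ∧
          ∀ G : ℤ[X], G ≠ 0 → ofList l ∣ G → length (ofList (f l)) ≤ length G := by
  refine ⟨Pool.Agent.V5helper47.MinLen.alg, Pool.Agent.V5helper47.MinLen.prim_alg.to_comp, ?_⟩
  intro l hirr hdeg h1 h2
  exact Pool.Agent.V5helper47.MinLen.alg_spec l hirr hdeg h1 h2

end Pool.Agent.Results.MP_e7878a_nt.Algorithm
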